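import Pool.Agent.H12Z.CbapMain

set_option autoImplicit false

namespace Pool.Agent.Results.MP_dd0577_an.CommutingBAP

open Pool.Agent.H12Z.Free

/-- **Q1.** The Lipschitz-free space over any compact subset of a Euclidean space, with any base
point, has the commuting bounded approximation property. -/
theorem result (d : ℕ) (K : Set (EuclideanSpace ℝ (Fin d))) (hK : IsCompact K) (o : K) :
    FreeHasCBAP o :=
  free_cbap K hK o

end Pool.Agent.Results.MP_dd0577_an.CommutingBAP
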